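import Pool.Agent.W172.MK.Stm

/-! Project MK, part LVA: agreement level and starting symbol. -/

set_option autoImplicit false

namespace Pool.Agent.W320.MK

open Finset Pool.Agent.W172.MK

theorem qq_ge {n : ℕ} (hn : 12 ≤ n) : (4096 : ℝ) ≤ qq n := by
  unfold qq
  calc (4096 : ℝ) = 2 ^ 12 := by norm_num
    _ ≤ 2 ^ n := pow_le_pow_right₀ (by norm_num) hn

theorem lva (h : P_HLAM) : P_LVA := by
  intro n hn D
  have hq := qq_ge hn
  have h1 : ∀ a, |hat (Lam (fun _ => 1) D) a| ≤ |hat D a| := by
    intro a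
    rw [h n (by omega) D (fun _ => 1) a]
    have h2 : (fun b => D b * (1 : ℝ)) = D := by
      funext b
      rw [mul_one]
    simp only [h2]
    by_cases ha : a = 0
    · rw [if_pos ha, ha]
    · rw [if_neg ha, abs_div, abs_neg, abs_of_pos (show (0 : ℝ) < qq n - 1 by linarith)]
      exact div_le_self (abs_nonneg _) (by linarith)
  exact ⟨Finset.sum_le_sum fun a _ => h1 a, fun a _ => h1 a⟩

theorem hat_D0 (h : P_EE) {n : ℕ} (hn : 12 ≤ n) (a : V n) :
    hat (D0 : V n → ℝ) a = if a = 0 then 1 else -1 / (qq n - 1) := by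
  have hq := qq_ge hn
  obtain ⟨-, hsymm, -, hz, hsum⟩ := h n
  have h1 : ∑ b : V n, ee a b = if a = 0 then qq n else 0 := by
    rw [← hsum a]
    exact Finset.sum_congr rfl fun b _ => hsymm a b
  have h2 : ee a 0 = 1 := by rw [hsymm, hz]
  have h3 : ∑ b : V n, D0 b * ee a b =
      qq n / (qq n - 1) * ((if a = 0 then qq n else 0) - 1) := by
    have h4 : ∀ b : V n, D0 b * ee a b = qq n / (qq n - 1) * ee a b -
        (if b = 0 then qq n / (qq n - 1) * ee a b else 0) := by
      intro b
      unfold D0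
      by_cases hb : b = 0
      · rw [if_pos hb, if_pos hb]; ring
      · rw [if_neg hb, if_neg hb]; ring
    rw [Finset.sum_congr rfl fun b _ => h4 b, Finset.sum_sub_distrib, ← Finset.mul_sum, h1,
      Finset.sum_ite_eq' univ (0 : V n) (fun b => qq n / (qq n - 1) * ee a b),
      if_pos (mem_univ _), h2]
    ring
  unfold hat
  rw [h3]
  have hq0 : qq n ≠ 0 := by linarith
  have hq1 : qq n - 1 ≠ 0 := by
    have : 0 < qq n - 1 := by linarith
    exact this.ne'
  by_cases ha : a = 0
  · rw [if_pos ha, if_pos ha]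
    field_simp
  · rw [if_neg ha, if_neg ha]
    field_simp
    ring

theorem l0 (h : P_EE) : P_L0 := by
  intro n hn
  have hq := qq_ge hn
  have hq1 : 0 < qq n - 1 := by linarith
  have habs : ∀ a : V n, |hat (D0 : V n → ℝ) a| =
      1 / (qq n - 1) + if a = 0 then 1 - 1 / (qq n - 1) else 0 := by
    intro a
    rw [hat_D0 h hn a]
    by_cases ha : a = 0
    · rw [if_pos ha, if_pos ha, abs_one]; ring
    · rw [if_neg ha, if_neg ha, abs_div, abs_neg, abs_one, abs_of_pos hq1, add_zero]
  refine ⟨?_, ?_, ?_⟩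
  · unfold L1
    rw [Finset.sum_congr rfl fun a _ => habs a, Finset.sum_add_distrib, Finset.sum_const,
      Finset.sum_ite_eq' univ (0 : V n) (fun _ => 1 - 1 / (qq n - 1)), if_pos (mem_univ _),
      Finset.card_univ, nsmul_eq_mul]
    have hc : ((Fintype.card (V n) : ℕ) : ℝ) = qq n := by
      rw [Fintype.card_fun, ZMod.card, Fintype.card_fin]
      unfold qq
      push_cast
      rfl
    rw [hc]
    field_simp
    ring
  · rw [hat_D0 h hn 0, if_pos rfl]
  · intro a ha
    rw [habs a, if_neg ha, add_zero]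
    apply one_div_le_one_div_of_le (by norm_num)
    linarith

end Pool.Agent.W320.MK
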